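import Pool.Agent.Q128.TR.Mix

namespace Pool.Agent.Results.MP_7d00fe_an.PowerGrowth

open Set Filter Topology MeasureTheory Polynomial
open Pool.Agent.Q128.TR

/-- The truncation of a coefficient: `a` if `|a| < 1`, and `a / |a|` if `|a| ≥ 1`. -/
noncomputable def T (a : ℂ) : ℂ := if ‖a‖ < 1 then a else a / (‖a‖ : ℂ)

/-- The operator `S_n` (it does not depend on `n`): `T` is applied to every coefficient. -/
noncomputable def S (P : ℂ[X]) : ℂ[X] := ∑ j ∈ Finset.range (P.natDegree + 1), monomial j (T (P.coeff j))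

/-- The (quasi-)norm `(∫_{∂D} |P|^p |dz|)^{1/p}`. -/
noncomputable def nrm (p : ℝ) (P : ℂ[X]) : ℝ :=
  (∫ t in (0 : ℝ)..(2 * Real.pi), ‖P.eval (Complex.exp (t * Complex.I))‖ ^ p) ^ (1 / p)

theorem T_zero : T 0 = 0 := by simp [T]

theorem S_coeff (P : ℂ[X]) (j : ℕ) : (S P).coeff j = T (P.coeff j) := by
  unfold S
  rw [finsetSum_coeff]
  simp only [coeff_monomial]
  rw [Finset.sum_ite_eq' (Finset.range (P.natDegree + 1)) j]
  split_ifs with h
  · rfl
  · rw [coeff_eq_zero_of_natDegree_lt (by simpa using h), T_zero]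

/-! ### The polynomials -/

/-- `∏_{k<d} (1 + X^(R^k) + w X^(2 R^k))` -/
noncomputable def F (R d : ℕ) (w : ℂ) : ℂ[X] :=
  ∏ k ∈ Finset.range d, (1 + X ^ (R ^ k) + C w * X ^ (2 * R ^ k))

theorem F_expand {R : ℕ} (hR : 3 ≤ R) (d : ℕ) : ∃ (J : Finset ℕ) (B : ℕ → ℕ), (∀ j ∈ J, j < R ^ d) ∧
    J.Nonempty ∧ ∀ w : ℂ, F R d w = ∑ j ∈ J, C (w ^ B j) * X ^ j := by
  induction d with
  | zero =>
    refine ⟨{0}, fun _ => 0, by simp, by simp, fun w => by simp [F]⟩
  | succ d ih =>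
    obtain ⟨J, B, hJ, hne, hF⟩ := ih
    have hRd : 0 < R ^ d := by positivity
    refine ⟨J ∪ J.map (addRightEmbedding (R ^ d)) ∪ J.map (addRightEmbedding (2 * R ^ d)),
      fun j => if j < R ^ d then B j else if j < 2 * R ^ d then B (j - R ^ d) else B (j - 2 * R ^ d) + 1,
      ?_, ?_, ?_⟩
    · intro j hj
      have h3 : 3 * R ^ d ≤ R ^ (d + 1) := by
        rw [pow_succ, mul_comm]; exact Nat.mul_le_mul_left _ hR
      simp only [Finset.mem_union, Finset.mem_map, addRightEmbedding_apply] at hj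
      rcases hj with (h | ⟨i, hi, rfl⟩) | ⟨i, hi, rfl⟩
      · have := hJ j h; omega
      · have := hJ i hi; omega
      · have := hJ i hi; omega
    · obtain ⟨j, hj⟩ := hne
      exact ⟨j, by simp [hj]⟩
    · intro w
      have hd1 : Disjoint J (J.map (addRightEmbedding (R ^ d))) := by
        rw [Finset.disjoint_left]
        intro j h1 h2
        simp only [Finset.mem_map, addRightEmbedding_apply] at h2
        obtain ⟨i, hi, rfl⟩ := h2
        have := hJ _ h1; omega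
      have hd2 : Disjoint (J ∪ J.map (addRightEmbedding (R ^ d))) (J.map (addRightEmbedding (2 * R ^ d))) := by
        rw [Finset.disjoint_left]
        intro j h1 h2
        simp only [Finset.mem_union, Finset.mem_map, addRightEmbedding_apply] at h1 h2
        obtain ⟨i, hi, rfl⟩ := h2
        rcases h1 with h | ⟨i', hi', h⟩
        · have := hJ _ h; omega
        · have := hJ _ hi'; omega
      rw [Finset.sum_union hd2, Finset.sum_union hd1, Finset.sum_map, Finset.sum_map]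
      have e1 : ∑ j ∈ J, C (w ^ (if j < R ^ d then B j else if j < 2 * R ^ d then B (j - R ^ d)
          else B (j - 2 * R ^ d) + 1)) * X ^ j = ∑ j ∈ J, C (w ^ B j) * (X ^ j : ℂ[X]) := by
        apply Finset.sum_congr rfl; intro j hj
        rw [if_pos (hJ j hj)]
      have e2 : ∑ j ∈ J, C (w ^ (if (addRightEmbedding (R ^ d)) j < R ^ d then B ((addRightEmbedding (R ^ d)) j)
          else if (addRightEmbedding (R ^ d)) j < 2 * R ^ d then B ((addRightEmbedding (R ^ d)) j - R ^ d)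
          else B ((addRightEmbedding (R ^ d)) j - 2 * R ^ d) + 1)) * X ^ ((addRightEmbedding (R ^ d)) j) =
          ∑ j ∈ J, C (w ^ B j) * (X ^ j * X ^ (R ^ d) : ℂ[X]) := by
        apply Finset.sum_congr rfl; intro j hj
        have := hJ j hj
        simp only [addRightEmbedding_apply]
        rw [if_neg (by omega), if_pos (by omega), pow_add, Nat.add_sub_cancel]
      have e3 : ∑ j ∈ J, C (w ^ (if (addRightEmbedding (2 * R ^ d)) j < R ^ d then
          B ((addRightEmbedding (2 * R ^ d)) j)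
          else if (addRightEmbedding (2 * R ^ d)) j < 2 * R ^ d then B ((addRightEmbedding (2 * R ^ d)) j - R ^ d)
          else B ((addRightEmbedding (2 * R ^ d)) j - 2 * R ^ d) + 1)) * X ^ ((addRightEmbedding (2 * R ^ d)) j) =
          ∑ j ∈ J, C (w ^ B j) * (X ^ j * (C w * X ^ (2 * R ^ d)) : ℂ[X]) := by
        apply Finset.sum_congr rfl; intro j hj
        have := hJ j hj
        simp only [addRightEmbedding_apply]
        rw [if_neg (by omega), if_neg (by omega), pow_add, Nat.add_sub_cancel, pow_succ, C_mul]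
        ring
      rw [e1, e2, e3]
      have hFs : F R (d + 1) w = F R d w * (1 + X ^ (R ^ d) + C w * X ^ (2 * R ^ d)) := by
        unfold F; rw [Finset.prod_range_succ]
      rw [hFs, hF w, mul_add, mul_add, mul_one, Finset.sum_mul, Finset.sum_mul]
      congr 1
      · congr 1
        apply Finset.sum_congr rfl; intro j _; ring
      · apply Finset.sum_congr rfl; intro j _; ring

/-- the coefficients `2, 1, 0, 1` -/
noncomputable def cR (m : ℕ) : ℝ := if m % 4 = 0 then 2 else if m % 4 = 2 then 0 else 1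

/-- the truncated coefficients `1, 1, 0, 1` -/
noncomputable def cT (m : ℕ) : ℝ := if m % 4 = 2 then 0 else 1

theorem T_cR (m : ℕ) : T (cR m : ℂ) = (cT m : ℂ) := by
  unfold cR cT T
  by_cases h0 : m % 4 = 0
  · simp [h0]
  · by_cases h2 : m % 4 = 2
    · simp [h2]
    · simp [h0, h2]

theorem I_pow_mod (m : ℕ) : Complex.I ^ m = Complex.I ^ (m % 4) := by
  conv_lhs => rw [← Nat.div_add_mod m 4, pow_add, pow_mul, Complex.I_pow_four, one_pow, one_mul]

theorem negI_pow_mod (m : ℕ) : (-Complex.I) ^ m = (-Complex.I) ^ (m % 4) := by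
  have : (-Complex.I) ^ 4 = 1 := by
    rw [neg_pow, Complex.I_pow_four]; norm_num
  conv_lhs => rw [← Nat.div_add_mod m 4, pow_add, pow_mul, this, one_pow, one_mul]

theorem I3 : Complex.I ^ 3 = -Complex.I := by
  rw [pow_succ, Complex.I_sq]; ring

theorem cR_eq (m : ℕ) : (cR m : ℂ) = 1 + (1 / 2) * (Complex.I ^ m + (-Complex.I) ^ m) := by
  rw [I_pow_mod, negI_pow_mod]
  unfold cR
  have h4 : m % 4 < 4 := Nat.mod_lt _ (by norm_num)
  interval_cases h : m % 4
  · norm_num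
  · norm_num
  · simp [Complex.I_sq]; norm_num
  · have h3 : (-Complex.I) ^ 3 = Complex.I := by rw [neg_pow, I3]; ring
    rw [I3, h3]; norm_num

theorem cT_alt (b : ℕ) : (cT b : ℂ) - cT (1 + b) + cT (2 + b) - cT (3 + b) = -(-1) ^ b := by
  have h1 : ((-1 : ℂ)) ^ b = (-1) ^ (b % 4) := by
    conv_lhs => rw [← Nat.div_add_mod b 4, pow_add, pow_mul]
    norm_num
  rw [h1]
  have h4 : b % 4 < 4 := Nat.mod_lt _ (by norm_num)
  unfold cT
  interval_cases h : b % 4
  · have e1 : (1 + b) % 4 = 1 := by omega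
    have e2 : (2 + b) % 4 = 2 := by omega
    have e3 : (3 + b) % 4 = 3 := by omega
    simp [e1, e2, e3]
  · have e1 : (1 + b) % 4 = 2 := by omega
    have e2 : (2 + b) % 4 = 3 := by omega
    have e3 : (3 + b) % 4 = 0 := by omega
    simp [e1, e2, e3]
  · have e1 : (1 + b) % 4 = 3 := by omega
    have e2 : (2 + b) % 4 = 0 := by omega
    have e3 : (3 + b) % 4 = 1 := by omega
    simp [e1, e2, e3]
  · have e1 : (1 + b) % 4 = 0 := by omega
    have e2 : (2 + b) % 4 = 1 := by omega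
    have e3 : (3 + b) % 4 = 2 := by omega
    simp [e1, e2, e3]
    norm_num

/-- the real polynomials -/
noncomputable def Qr (J : Finset ℕ) (B : ℕ → ℕ) (k : ℕ) : ℝ[X] := ∑ j ∈ J, C (cR (k + B j)) * X ^ j

noncomputable def Qc (J : Finset ℕ) (B : ℕ → ℕ) (k : ℕ) : ℂ[X] := (Qr J B k).map Complex.ofRealHom

theorem Qc_eq (J : Finset ℕ) (B : ℕ → ℕ) (k : ℕ) : Qc J B k = ∑ j ∈ J, C ((cR (k + B j) : ℝ) : ℂ) * X ^ j := by
  unfold Qc Qr
  rw [Polynomial.map_sum]
  apply Finset.sum_congr rfl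
  intro j _
  simp

theorem coeff_sum_J (J : Finset ℕ) (c : ℕ → ℂ) (i : ℕ) :
    (∑ j ∈ J, C (c j) * X ^ j).coeff i = if i ∈ J then c i else 0 := by
  rw [finsetSum_coeff]
  simp only [coeff_C_mul, coeff_X_pow]
  simp

theorem S_Qc (J : Finset ℕ) (B : ℕ → ℕ) (k : ℕ) :
    S (Qc J B k) = ∑ j ∈ J, C ((cT (k + B j) : ℝ) : ℂ) * X ^ j := by
  ext i
  rw [S_coeff, Qc_eq, coeff_sum_J J (fun j => ((cR (k + B j) : ℝ) : ℂ)),
    coeff_sum_J J (fun j => ((cT (k + B j) : ℝ) : ℂ))]
  split_ifs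
  · exact T_cR _
  · exact T_zero

/-! ### The integrals -/

/-- `∫ |P|^p` -/
noncomputable def ip (p : ℝ) (P : ℂ[X]) : ℝ :=
  ∫ t in (0 : ℝ)..(2 * Real.pi), ‖P.eval (Complex.exp (t * Complex.I))‖ ^ p

theorem cont_ev {p : ℝ} (hp : 0 < p) (P : ℂ[X]) :
    Continuous (fun t : ℝ => ‖P.eval (Complex.exp (t * Complex.I))‖ ^ p) := by
  apply Continuous.rpow_const _ (fun _ => Or.inr hp.le)
  apply Continuous.norm
  apply P.continuous.comp
  fun_prop

theorem ip_nonneg (p : ℝ) (P : ℂ[X]) : 0 ≤ ip p P :=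
  intervalIntegral.integral_nonneg twopi_pos.le fun _ _ => by positivity

theorem sum_pow_le {ι : Type*} (s : Finset ι) (hs : s.Nonempty) {p : ℝ} (hp : 0 < p) (x : ι → ℂ) :
    ‖∑ i ∈ s, x i‖ ^ p ≤ (s.card : ℝ) ^ p * ∑ i ∈ s, ‖x i‖ ^ p := by
  obtain ⟨i0, hi0, hmax⟩ := s.exists_max_image (fun i => ‖x i‖) hs
  have h1 : ‖∑ i ∈ s, x i‖ ≤ s.card * ‖x i0‖ := by
    calc ‖∑ i ∈ s, x i‖ ≤ ∑ i ∈ s, ‖x i‖ := norm_sum_le _ _
      _ ≤ ∑ i ∈ s, ‖x i0‖ := Finset.sum_le_sum fun i hi => hmax i hi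
      _ = _ := by rw [Finset.sum_const, nsmul_eq_mul]
  calc ‖∑ i ∈ s, x i‖ ^ p ≤ (s.card * ‖x i0‖) ^ p := Real.rpow_le_rpow (norm_nonneg _) h1 hp.le
    _ = (s.card : ℝ) ^ p * ‖x i0‖ ^ p := Real.mul_rpow (by positivity) (norm_nonneg _)
    _ ≤ _ := by
        apply mul_le_mul_of_nonneg_left _ (by positivity)
        exact Finset.single_le_sum (f := fun i => ‖x i‖ ^ p) (fun _ _ => by positivity) hi0

theorem ip_sum_le {ι : Type*} (s : Finset ι) (hs : s.Nonempty) {p : ℝ} (hp : 0 < p) (P : ι → ℂ[X]) (Q : ℂ[X])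
    (h : ∀ z : ℂ, Q.eval z = ∑ i ∈ s, (P i).eval z) :
    ip p Q ≤ (s.card : ℝ) ^ p * ∑ i ∈ s, ip p (P i) := by
  unfold ip
  rw [← intervalIntegral.integral_finsetSum (fun i _ => (cont_ev hp (P i)).intervalIntegrable _ _),
    ← intervalIntegral.integral_const_mul]
  apply intervalIntegral.integral_mono_on twopi_pos.le ((cont_ev hp Q).intervalIntegrable _ _)
  · apply Continuous.intervalIntegrable
    apply Continuous.mul continuous_const
    exact continuous_finsetSum _ fun i _ => cont_ev hp (P i)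
  · intro t _
    rw [h]
    exact sum_pow_le s hs hp _

theorem ip_smul_le {p : ℝ} (hp : 0 < p) (c : ℂ) (hc : ‖c‖ ≤ 1) (P : ℂ[X]) : ip p (C c * P) ≤ ip p P := by
  unfold ip
  apply intervalIntegral.integral_mono_on twopi_pos.le ((cont_ev hp _).intervalIntegrable _ _)
    ((cont_ev hp _).intervalIntegrable _ _)
  intro t _
  apply Real.rpow_le_rpow (norm_nonneg _) _ hp.le
  rw [eval_mul, eval_C, norm_mul]
  exact mul_le_of_le_one_left (norm_nonneg _) hc

/-- the local function -/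
noncomputable def gw (p : ℝ) (w : ℂ) (t : ℝ) : ℝ :=
  ‖1 + Complex.exp (t * Complex.I) + w * Complex.exp (t * Complex.I) ^ 2‖ ^ p

theorem gw_cont {p : ℝ} (hp : 0 < p) (w : ℂ) : Continuous (gw p w) := by
  unfold gw
  apply Continuous.rpow_const _ (fun _ => Or.inr hp.le)
  fun_prop

theorem gw_nonneg (p : ℝ) (w : ℂ) (t : ℝ) : 0 ≤ gw p w t := by unfold gw; positivity

theorem gw_periodic (p : ℝ) (w : ℂ) (t : ℝ) : gw p w (t + 2 * Real.pi) = gw p w t := by
  unfold gw
  have : Complex.exp (((t + 2 * Real.pi : ℝ) : ℂ) * Complex.I) = Complex.exp (t * Complex.I) := by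
    push_cast
    rw [add_mul, Complex.exp_add, Complex.exp_two_pi_mul_I, mul_one]
  rw [this]

theorem ip_F {p : ℝ} (R d : ℕ) (w : ℂ) : ip p (F R d w) = ∫ t in (0 : ℝ)..(2 * Real.pi), pf (gw p w) R d t := by
  unfold ip
  congr 1
  ext t
  unfold F pf gw
  rw [eval_prod, norm_prod, ← Real.finsetProd_rpow _ _ (fun _ _ => norm_nonneg _)]
  apply Finset.prod_congr rfl
  intro k _
  congr 2
  have h1 : Complex.exp (t * Complex.I) ^ (R ^ k) = Complex.exp (((R : ℝ) ^ k * t : ℝ) * Complex.I) := by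
    rw [← Complex.exp_nat_mul]; congr 1; push_cast; ring
  simp only [eval_add, eval_one, eval_mul, eval_C, eval_pow, eval_X]
  rw [mul_comm 2 (R ^ k), pow_mul, h1]

/-- exact form of `|1 + z + w z²|²` -/
theorem gw_eq {p : ℝ} (w : ℂ) (t : ℝ) : gw p w t =
    (Complex.normSq (1 + Complex.exp (t * Complex.I) + w * Complex.exp (t * Complex.I) ^ 2)) ^ (p / 2) := by
  unfold gw
  rw [Complex.normSq_eq_norm_sq, ← Real.rpow_natCast, ← Real.rpow_mul (norm_nonneg _)]
  congr 1
  push_cast; ring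

theorem exp_re_im (t : ℝ) : Complex.exp (t * Complex.I) = ⟨Real.cos t, Real.sin t⟩ := by
  apply Complex.ext
  · exact Complex.exp_ofReal_mul_I_re t
  · exact Complex.exp_ofReal_mul_I_im t

theorem exp_sq (t : ℝ) : Complex.exp (t * Complex.I) ^ 2 = ⟨Real.cos (2 * t), Real.sin (2 * t)⟩ := by
  rw [← Complex.exp_nat_mul]
  have : ((2 : ℕ) : ℂ) * (t * Complex.I) = ((2 * t : ℝ) : ℂ) * Complex.I := by push_cast; ring
  rw [this, exp_re_im]

theorem gw_one {p : ℝ} (t : ℝ) : gw p 1 t =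
    (3 + 4 * Real.cos (t + 0) + 2 * Real.cos (2 * (t + 0))) ^ (p / 2) := by
  rw [gw_eq, exp_sq, exp_re_im]
  congr 1
  rw [Complex.normSq_apply]
  simp only [Complex.add_re, Complex.add_im, Complex.one_re, Complex.one_im, one_mul, add_zero]
  rw [Real.cos_two_mul, Real.sin_two_mul]
  linear_combination (1 + 2 * Real.cos t) ^ 2 * Real.sin_sq_add_cos_sq t

theorem gw_negone {p : ℝ} (t : ℝ) : gw p (-1) t = (3 - 2 * Real.cos (2 * t)) ^ (p / 2) := by
  rw [gw_eq, exp_sq, exp_re_im]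
  congr 1
  rw [Complex.normSq_apply]
  simp only [Complex.add_re, Complex.add_im, Complex.one_re, Complex.one_im, neg_mul, one_mul,
    Complex.neg_re, Complex.neg_im]
  rw [Real.cos_two_mul, Real.sin_two_mul]
  linear_combination (1 - 2 * Real.cos t) ^ 2 * Real.sin_sq_add_cos_sq t

theorem gw_I {p : ℝ} (t : ℝ) : gw p Complex.I t =
    (3 + 2 * Real.sqrt 2 * Real.cos (t + Real.pi / 4) + 2 * Real.cos (2 * (t + Real.pi / 4))) ^ (p / 2) := by
  rw [gw_eq, exp_sq, exp_re_im]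
  congr 1
  rw [Complex.normSq_apply]
  simp only [Complex.add_re, Complex.add_im, Complex.one_re, Complex.one_im, Complex.mul_re, Complex.mul_im,
    Complex.I_re, Complex.I_im]
  have h1 : Real.cos (2 * (t + Real.pi / 4)) = -Real.sin (2 * t) := by
    rw [show 2 * (t + Real.pi / 4) = 2 * t + Real.pi / 2 by ring, Real.cos_add_pi_div_two]
  have h2 : 2 * Real.sqrt 2 * Real.cos (t + Real.pi / 4) = 2 * Real.cos t - 2 * Real.sin t := by
    rw [Real.cos_add, Real.cos_pi_div_four, Real.sin_pi_div_four]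
    have : Real.sqrt 2 * Real.sqrt 2 = 2 := Real.mul_self_sqrt (by norm_num)
    linear_combination (Real.cos t - Real.sin t) * this
  rw [h1, h2]
  have h3 := Real.sin_sq_add_cos_sq t
  have h4 := Real.sin_sq_add_cos_sq (2 * t)
  have h5 : Real.cos t * Real.sin (2 * t) - Real.sin t * Real.cos (2 * t) = Real.sin t := by
    have := Real.sin_sub (2 * t) t
    rw [show 2 * t - t = t by ring] at this
    linarith
  linear_combination h3 + h4 - 2 * h5

theorem gw_negI {p : ℝ} (t : ℝ) : gw p (-Complex.I) t =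
    (3 + 2 * Real.sqrt 2 * Real.cos (t + -(Real.pi / 4)) + 2 * Real.cos (2 * (t + -(Real.pi / 4)))) ^ (p / 2) := by
  rw [gw_eq, exp_sq, exp_re_im]
  congr 1
  rw [Complex.normSq_apply]
  simp only [Complex.add_re, Complex.add_im, Complex.one_re, Complex.one_im, Complex.mul_re, Complex.mul_im,
    Complex.I_re, Complex.I_im, Complex.neg_re, Complex.neg_im]
  have h1 : Real.cos (2 * (t + -(Real.pi / 4))) = Real.sin (2 * t) := by
    rw [show 2 * (t + -(Real.pi / 4)) = 2 * t - Real.pi / 2 by ring, Real.cos_sub_pi_div_two]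
  have h2 : 2 * Real.sqrt 2 * Real.cos (t + -(Real.pi / 4)) = 2 * Real.cos t + 2 * Real.sin t := by
    rw [Real.cos_add, Real.cos_neg, Real.sin_neg, Real.cos_pi_div_four, Real.sin_pi_div_four]
    have : Real.sqrt 2 * Real.sqrt 2 = 2 := Real.mul_self_sqrt (by norm_num)
    linear_combination (Real.cos t + Real.sin t) * this
  rw [h1, h2]
  have h3 := Real.sin_sq_add_cos_sq t
  have h4 := Real.sin_sq_add_cos_sq (2 * t)
  have h5 : Real.cos t * Real.sin (2 * t) - Real.sin t * Real.cos (2 * t) = Real.sin t := by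
    have := Real.sin_sub (2 * t) t
    rw [show 2 * t - t = t by ring] at this
    linarith
  linear_combination h3 + h4 + 2 * h5

theorem means {p : ℝ} (hp0 : 0 < p) (hp2 : p < 2) (w : ℂ) (hw : w = 1 ∨ w = Complex.I ∨ w = -Complex.I) :
    ∫ t in (0 : ℝ)..(2 * Real.pi), gw p w t < ∫ t in (0 : ℝ)..(2 * Real.pi), gw p (-1) t := by
  have hq0 : 0 < p / 2 := by linarith
  have hq1 : p / 2 < 1 := by linarith
  have hs2 : Real.sqrt 2 ≤ 2 := by
    rw [Real.sqrt_le_left (by norm_num)]; norm_num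
  have hs0 : 0 < Real.sqrt 2 := by positivity
  simp only [gw_negone]
  rcases hw with rfl | rfl | rfl
  · simp only [gw_one]
    exact mean_lt hq0 hq1 (by norm_num) (by norm_num)
  · simp only [gw_I]
    exact mean_lt hq0 hq1 (by positivity) (by rw [abs_of_pos (by positivity)]; linarith)
  · simp only [gw_negI]
    exact mean_lt hq0 hq1 (by positivity) (by rw [abs_of_pos (by positivity)]; linarith)

/-- exponential separation for one `R` and all `d` -/
theorem separation {p : ℝ} (hp0 : 0 < p) (hp2 : p < 2) : ∃ (R : ℕ) (lam Lam : ℝ), 3 ≤ R ∧ 0 < Lam ∧ Lam < lam ∧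
    ∀ d : ℕ, 2 * Real.pi * lam ^ d ≤ ip p (F R d (-1)) ∧
      ∀ w : ℂ, (w = 1 ∨ w = Complex.I ∨ w = -Complex.I) → ip p (F R d w) ≤ 2 * Real.pi * Lam ^ d := by
  have hpi := twopi_pos
  set μ : ℂ → ℝ := fun w => (∫ t in (0 : ℝ)..(2 * Real.pi), gw p w t) / (2 * Real.pi) with hμ
  have hlt : ∀ w : ℂ, (w = 1 ∨ w = Complex.I ∨ w = -Complex.I) → μ w < μ (-1) := fun w hw =>
    div_lt_div_of_pos_right (means hp0 hp2 w hw) hpi
  have hμ0 : ∀ w : ℂ, 0 ≤ μ w := fun w =>
    div_nonneg (intervalIntegral.integral_nonneg twopi_pos.le fun t _ => gw_nonneg p w t) twopi_pos.le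
  set m := max (μ 1) (max (μ Complex.I) (μ (-Complex.I))) with hm
  have hmlt : m < μ (-1) := by
    rw [hm]
    exact max_lt (hlt 1 (Or.inl rfl)) (max_lt (hlt _ (Or.inr (Or.inl rfl))) (hlt _ (Or.inr (Or.inr rfl))))
  have hm0 : 0 ≤ m := (hμ0 1).trans (le_max_left _ _)
  have hwm : ∀ w : ℂ, (w = 1 ∨ w = Complex.I ∨ w = -Complex.I) → μ w ≤ m := by
    rintro w (rfl | rfl | rfl)
    · exact le_max_left _ _
    · exact (le_max_left _ _).trans (le_max_right _ _)
    · exact (le_max_right _ _).trans (le_max_right _ _)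
  set ε := (μ (-1) - m) / 4 with hε
  have hεpos : 0 < ε := by rw [hε]; linarith
  have hmix : ∀ w : ℂ, ∃ R0 : ℕ, 0 < R0 ∧ ∀ R : ℕ, R0 ≤ R → ∀ d : ℕ,
      (ε ≤ μ w → 2 * Real.pi * (μ w - ε) ^ d ≤ ip p (F R d w)) ∧
      ip p (F R d w) ≤ 2 * Real.pi * (μ w + ε) ^ d := by
    intro w
    obtain ⟨R0, h0, h⟩ := mixing (gw_cont hp0 w) (gw_nonneg p w) (gw_periodic p w) ε hεpos
    refine ⟨R0, h0, fun R hR d => ?_⟩
    rw [ip_F]
    exact h R hR d
  obtain ⟨R1, -, h1⟩ := hmix (-1)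
  obtain ⟨R2, -, h2⟩ := hmix 1
  obtain ⟨R3, -, h3⟩ := hmix Complex.I
  obtain ⟨R4, -, h4⟩ := hmix (-Complex.I)
  refine ⟨3 + R1 + R2 + R3 + R4, μ (-1) - ε, m + ε, by omega, by linarith, by rw [hε]; linarith, fun d => ⟨?_, ?_⟩⟩
  · exact (h1 _ (by omega) d).1 (by rw [hε]; linarith)
  · intro w hw
    have hup : ip p (F (3 + R1 + R2 + R3 + R4) d w) ≤ 2 * Real.pi * (μ w + ε) ^ d := by
      rcases hw with rfl | rfl | rfl
      · exact (h2 _ (by omega) d).2
      · exact (h3 _ (by omega) d).2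
      · exact (h4 _ (by omega) d).2
    refine hup.trans (mul_le_mul_of_nonneg_left ?_ hpi.le)
    apply pow_le_pow_left₀ (by linarith [hμ0 w])
    linarith [hwm w hw]

theorem Qc_natDegree {J : Finset ℕ} {B : ℕ → ℕ} {k N : ℕ} (hJ : ∀ j ∈ J, j < N) (hN : 0 < N) :
    (Qr J B k).natDegree < N := by
  unfold Qr
  refine lt_of_le_of_lt (natDegree_sum_le_of_forall_le J _ (n := N - 1) ?_) (by omega)
  intro j hj
  refine (natDegree_C_mul_X_pow_le _ _).trans ?_
  have := hJ j hj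
  omega

/-- the main estimate for one `d` -/
theorem one_d {p : ℝ} (hp0 : 0 < p) {R : ℕ} (hR : 3 ≤ R) {lam Lam : ℝ} (hLam : 0 < Lam) (hlt : Lam < lam) (d : ℕ)
    (h1 : 2 * Real.pi * lam ^ d ≤ ip p (F R d (-1)))
    (h2 : ∀ w : ℂ, (w = 1 ∨ w = Complex.I ∨ w = -Complex.I) → ip p (F R d w) ≤ 2 * Real.pi * Lam ^ d) :
    ∃ P : ℝ[X], P ≠ 0 ∧ P.natDegree < R ^ d ∧
      (lam / Lam) ^ d / (24 * 12 ^ p) * ip p (P.map Complex.ofRealHom) ≤ ip p (S (P.map Complex.ofRealHom)) := by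
  obtain ⟨J, B, hJ, hne, hF⟩ := F_expand hR d
  have hRd : 0 < R ^ d := by positivity
  by_contra hcon
  push Not at hcon
  set κ := (lam / Lam) ^ d / (24 * 12 ^ p) with hκ
  have hκ0 : 0 ≤ κ := by
    rw [hκ]
    have : 0 < lam := by linarith
    positivity
  -- the bound for every k
  have hk : ∀ k, ip p (S (Qc J B k)) ≤ κ * ip p (Qc J B k) := by
    intro k
    by_cases h0 : Qr J B k = 0
    · have e1 : Qc J B k = 0 := by unfold Qc; rw [h0]; simp
      have e2 : S (0 : ℂ[X]) = 0 := by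
        ext i; rw [S_coeff, coeff_zero, T_zero]
      rw [e1, e2]
      unfold ip
      simp [Real.zero_rpow hp0.ne']
    · exact (hcon _ h0 (Qc_natDegree hJ hRd)).le
  -- the upper bound for the norms of the Q_k
  have hQ : ∀ k, ip p (Qc J B k) ≤ 3 ^ p * (3 * (2 * Real.pi * Lam ^ d)) := by
    intro k
    have hs := ip_sum_le (Finset.univ : Finset (Fin 3)) ⟨0, by simp⟩ hp0
      ![F R d 1, C ((1 / 2) * Complex.I ^ k) * F R d Complex.I,
        C ((1 / 2) * (-Complex.I) ^ k) * F R d (-Complex.I)] (Qc J B k) (by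
        intro z
        rw [Fin.sum_univ_three, Qc_eq]
        simp only [Matrix.cons_val]
        rw [hF 1, hF Complex.I, hF (-Complex.I)]
        simp only [eval_mul, eval_C, eval_finsetSum, eval_pow, eval_X]
        rw [Finset.mul_sum, Finset.mul_sum, ← Finset.sum_add_distrib, ← Finset.sum_add_distrib]
        apply Finset.sum_congr rfl
        intro j _
        rw [cR_eq, pow_add, pow_add, one_pow]
        ring)
    rw [Fin.sum_univ_three] at hs
    simp only [Matrix.cons_val, Finset.card_univ, Fintype.card_fin] at hs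
    have b1 := h2 1 (Or.inl rfl)
    have b2 := (ip_smul_le hp0 ((1 / 2) * Complex.I ^ k) (by
      rw [norm_mul, norm_pow, Complex.norm_I, one_pow]; norm_num) (F R d Complex.I)).trans
      (h2 _ (Or.inr (Or.inl rfl)))
    have b3 := (ip_smul_le hp0 ((1 / 2) * (-Complex.I) ^ k) (by
      rw [norm_mul, norm_pow, norm_neg, Complex.norm_I, one_pow]; norm_num) (F R d (-Complex.I))).trans
      (h2 _ (Or.inr (Or.inr rfl)))
    refine hs.trans ?_
    push_cast
    apply mul_le_mul_of_nonneg_left _ (by positivity)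
    linarith
  -- the lower bound
  have hL : ip p (F R d (-1)) ≤ 4 ^ p * ∑ k : Fin 4, ip p (S (Qc J B k)) := by
    have hs := ip_sum_le (Finset.univ : Finset (Fin 4)) ⟨0, by simp⟩ hp0
      (fun k : Fin 4 => C (-(-1) ^ (k : ℕ)) * S (Qc J B k)) (F R d (-1)) (by
        intro z
        rw [Fin.sum_univ_four]
        simp only [S_Qc, hF (-1)]
        simp only [eval_mul, eval_C, eval_finsetSum, eval_pow, eval_X]
        rw [Finset.mul_sum, Finset.mul_sum, Finset.mul_sum, Finset.mul_sum, ← Finset.sum_add_distrib,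
          ← Finset.sum_add_distrib, ← Finset.sum_add_distrib]
        apply Finset.sum_congr rfl
        intro j _
        have := cT_alt (B j)
        simp only [Fin.val_zero, Fin.val_one, Fin.val_two, zero_add, pow_zero, pow_one]
        have e3 : ((3 : Fin 4) : ℕ) = 3 := rfl
        rw [e3]
        linear_combination (z ^ j) * this)
    simp only [Finset.card_univ, Fintype.card_fin] at hs
    refine hs.trans ?_
    push_cast
    apply mul_le_mul_of_nonneg_left _ (by positivity)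
    apply Finset.sum_le_sum
    intro k _
    apply ip_smul_le hp0
    rw [norm_neg, norm_pow, norm_neg, norm_one, one_pow]
  have hsum : ∑ k : Fin 4, ip p (S (Qc J B k)) ≤ 4 * (κ * (3 ^ p * (3 * (2 * Real.pi * Lam ^ d)))) := by
    calc ∑ k : Fin 4, ip p (S (Qc J B k)) ≤ ∑ k : Fin 4, κ * (3 ^ p * (3 * (2 * Real.pi * Lam ^ d))) := by
          apply Finset.sum_le_sum
          intro k _
          exact (hk k).trans (mul_le_mul_of_nonneg_left (hQ k) hκ0)
      _ = _ := by simp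
  have h4 : (0 : ℝ) < 4 ^ p := by positivity
  have hfin : 2 * Real.pi * lam ^ d ≤ 4 ^ p * (4 * (κ * (3 ^ p * (3 * (2 * Real.pi * Lam ^ d))))) :=
    h1.trans (hL.trans (mul_le_mul_of_nonneg_left hsum h4.le))
  have h12 : (4 : ℝ) ^ p * 3 ^ p = 12 ^ p := by
    rw [← Real.mul_rpow (by norm_num) (by norm_num)]; norm_num
  have h12pos : (0 : ℝ) < 12 ^ p := by positivity
  have hLd : 0 < Lam ^ d := by positivity
  have hld : 0 < lam ^ d := pow_pos (by linarith) d
  have e : (4 : ℝ) ^ p * (4 * (κ * (3 ^ p * (3 * (2 * Real.pi * Lam ^ d))))) = Real.pi * lam ^ d := by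
    have e0 : (4 : ℝ) ^ p * (4 * (κ * (3 ^ p * (3 * (2 * Real.pi * Lam ^ d))))) =
        (4 ^ p * 3 ^ p) * 24 * Real.pi * (κ * Lam ^ d) := by ring
    rw [e0, h12, hκ, div_pow]
    field_simp
  rw [e] at hfin
  have : 0 < Real.pi * lam ^ d := by positivity
  linarith

theorem nrm_eq (p : ℝ) (P : ℂ[X]) : nrm p P = ip p P ^ (1 / p) := rfl

theorem ip_pos {p : ℝ} (hp : 0 < p) {P : ℂ[X]} (hP : P ≠ 0) : 0 < ip p P := by
  have h0 : ∃ t ∈ Icc (0 : ℝ) (2 * Real.pi), (0 : ℝ) < ‖P.eval (Complex.exp (t * Complex.I))‖ ^ p := by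
    by_contra hcon
    push Not at hcon
    apply hP
    apply Polynomial.eq_zero_of_infinite_isRoot
    have hinj : InjOn (fun t : ℝ => Complex.exp (t * Complex.I)) (Icc (0 : ℝ) 1) := by
      intro s hs t ht hst
      have h1 : (Complex.exp (s * Complex.I)).re = (Complex.exp (t * Complex.I)).re := congrArg Complex.re hst
      rw [Complex.exp_ofReal_mul_I_re, Complex.exp_ofReal_mul_I_re] at h1
      have h3 := Real.pi_gt_three
      exact Real.injOn_cos ⟨hs.1, by linarith [hs.2]⟩ ⟨ht.1, by linarith [ht.2]⟩ h1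
    apply Set.Infinite.mono _ ((Set.Icc_infinite (show (0 : ℝ) < 1 by norm_num)).image hinj)
    rintro _ ⟨t, ht, rfl⟩
    have h3 := Real.pi_gt_three
    have h1 := hcon t ⟨ht.1, by linarith [ht.2]⟩
    have h2 : ‖P.eval (Complex.exp (t * Complex.I))‖ = 0 := by
      by_contra hne
      have : 0 < ‖P.eval (Complex.exp (t * Complex.I))‖ := lt_of_le_of_ne (norm_nonneg _) (Ne.symm hne)
      have := Real.rpow_pos_of_pos this p
      linarith
    exact norm_eq_zero.mp h2
  have h1 := intervalIntegral.integral_lt_integral_of_continuousOn_of_le_of_exists_lt (f := fun _ => (0 : ℝ))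
    twopi_pos continuousOn_const (cont_ev hp P).continuousOn (fun t _ => by positivity) h0
  rw [intervalIntegral.integral_zero] at h1
  exact h1

/-- power growth for real polynomials -/
theorem growth {p : ℝ} (hp0 : 0 < p) (hp2 : p < 2) : ∃ η : ℝ, 0 < η ∧ ∃ c : ℝ, 0 < c ∧ ∀ n : ℕ, 1 ≤ n →
    ∃ P : ℝ[X], P ≠ 0 ∧ P.natDegree ≤ n ∧
      c * (n : ℝ) ^ η * nrm p (P.map Complex.ofRealHom) ≤ nrm p (S (P.map Complex.ofRealHom)) := by
  obtain ⟨R, lam, Lam, hR, hLam, hlt, hsep⟩ := separation hp0 hp2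
  have hlam : 0 < lam := by linarith
  set ρ := lam / Lam with hρ
  have hρ1 : 1 < ρ := by rw [hρ, one_lt_div hLam]; exact hlt
  have hR1 : (1 : ℝ) < R := by
    have : (3 : ℝ) ≤ R := by exact_mod_cast hR
    linarith
  have hR0 : (0 : ℝ) < R := by linarith
  have hlogR : 0 < Real.log R := Real.log_pos hR1
  set η := Real.log ρ / (p * Real.log R) with hη
  have hηpos : 0 < η := by
    rw [hη]
    have := Real.log_pos hρ1
    positivity
  have hRη : (R : ℝ) ^ η = ρ ^ (1 / p) := by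
    rw [Real.rpow_def_of_pos hR0, Real.rpow_def_of_pos (by linarith), hη]
    congr 1
    field_simp
  set c0 := (1 / (24 * (12 : ℝ) ^ p)) ^ (1 / p) with hc0
  have hc0pos : 0 < c0 := by rw [hc0]; positivity
  have hRηpos : 0 < (R : ℝ) ^ η := by positivity
  refine ⟨η, hηpos, c0 / (R : ℝ) ^ η, by positivity, fun n hn => ?_⟩
  set d := Nat.log R n with hd
  have hd1 : R ^ d ≤ n := Nat.pow_log_le_self R (by omega)
  have hd2 : n < R ^ (d + 1) := Nat.lt_pow_succ_log_self (by omega) n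
  obtain ⟨P, hP0, hPdeg, hP⟩ := one_d hp0 hR hLam hlt d (hsep d).1 (hsep d).2
  refine ⟨P, hP0, by omega, ?_⟩
  rw [nrm_eq, nrm_eq]
  have hinv : 0 < 1 / p := by positivity
  have h1 : (ρ ^ d / (24 * 12 ^ p) * ip p (P.map Complex.ofRealHom)) ^ (1 / p) ≤
      ip p (S (P.map Complex.ofRealHom)) ^ (1 / p) := by
    apply Real.rpow_le_rpow _ hP hinv.le
    have := ip_nonneg p (P.map Complex.ofRealHom)
    have hρ0 : 0 < ρ := by linarith
    positivity
  refine le_trans ?_ h1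
  have hρ0 : 0 < ρ := by linarith
  rw [Real.mul_rpow (by positivity) (ip_nonneg _ _)]
  apply mul_le_mul_of_nonneg_right _ (by have := ip_nonneg p (P.map Complex.ofRealHom); positivity)
  have h2 : ρ ^ d / (24 * (12 : ℝ) ^ p) = ρ ^ d * (1 / (24 * 12 ^ p)) := by ring
  rw [h2, Real.mul_rpow (by positivity) (by positivity), ← hc0]
  have h3 : (n : ℝ) ^ η ≤ (R : ℝ) ^ η * (ρ ^ d) ^ (1 / p) := by
    have h4 : (n : ℝ) ≤ (R : ℝ) * (R : ℝ) ^ d := by
      have : (n : ℝ) ≤ ((R ^ (d + 1) : ℕ) : ℝ) := by exact_mod_cast hd2.le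
      rw [pow_succ] at this
      push_cast at this
      linarith
    calc (n : ℝ) ^ η ≤ ((R : ℝ) * (R : ℝ) ^ d) ^ η := Real.rpow_le_rpow (by positivity) h4 hηpos.le
      _ = (R : ℝ) ^ η * ((R : ℝ) ^ d) ^ η := Real.mul_rpow hR0.le (by positivity)
      _ = (R : ℝ) ^ η * (ρ ^ d) ^ (1 / p) := by
          congr 1
          rw [← Real.rpow_natCast (R : ℝ) d, ← Real.rpow_mul hR0.le, mul_comm, Real.rpow_mul hR0.le, hRη,
            ← Real.rpow_mul hρ0.le, mul_comm, Real.rpow_mul hρ0.le, Real.rpow_natCast]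
  calc c0 / (R : ℝ) ^ η * (n : ℝ) ^ η ≤ c0 / (R : ℝ) ^ η * ((R : ℝ) ^ η * (ρ ^ d) ^ (1 / p)) :=
        mul_le_mul_of_nonneg_left h3 (by positivity)
    _ = (ρ ^ d) ^ (1 / p) * c0 := by field_simp

/-- **Q2: there is no such `p`; the norms grow at least like a power of `n`, already for real polynomials.** -/
theorem result (p : ℝ) (hp0 : 0 < p) (hp2 : p < 2) :
    (∃ η : ℝ, 0 < η ∧ ∃ c : ℝ, 0 < c ∧ ∀ n : ℕ, 1 ≤ n → ∃ P : ℝ[X], P ≠ 0 ∧ P.natDegree ≤ n ∧
      c * (n : ℝ) ^ η * nrm p (P.map Complex.ofRealHom) ≤ nrm p (S (P.map Complex.ofRealHom))) ∧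
    ¬ ∃ K : ℝ, ∀ n : ℕ, 1 ≤ n → ∀ P : ℂ[X], P ≠ 0 → P.natDegree ≤ n → nrm p (S P) ≤ K * nrm p P := by
  refine ⟨growth hp0 hp2, ?_⟩
  rintro ⟨K, hK⟩
  obtain ⟨η, hη, c, hc, h⟩ := growth hp0 hp2
  have ht : Tendsto (fun n : ℕ => c * (n : ℝ) ^ η) atTop atTop :=
    ((tendsto_rpow_atTop hη).comp tendsto_natCast_atTop_atTop).const_mul_atTop hc
  obtain ⟨n, hn1, hn2⟩ := ((ht.eventually (eventually_gt_atTop K)).and (eventually_ge_atTop 1)).exists
  obtain ⟨P, hP0, hPn, hP⟩ := h n hn2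
  have hP0' : P.map Complex.ofRealHom ≠ 0 := by
    rw [Ne, Polynomial.map_eq_zero]; exact hP0
  have h1 := hK n hn2 _ hP0' (by rw [natDegree_map]; exact hPn)
  have hpos : 0 < nrm p (P.map Complex.ofRealHom) := by
    rw [nrm_eq]
    exact Real.rpow_pos_of_pos (ip_pos hp0 hP0') _
  have h2 := hP.trans h1
  have h3 := le_of_mul_le_mul_right h2 hpos
  linarith

end Pool.Agent.Results.MP_7d00fe_an.PowerGrowth
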